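import Pool.Agent.W188.QS.Stm5
import Pool.Agent.W864.QS.PCm
import Pool.Agent.W928.QS.Fub

/-!
Project QS (helper188), part 5: sharp cut-off.
-/

set_option autoImplicit false

open MeasureTheory Set Filter Topology

namespace Pool.Agent.W721.QS

open Pool.Agent.W188.QS Pool.Agent.W864.QS

/-- the weight `exp (-(t/3)^2)` on `t > 0` -/
noncomputable def wE (t : ℝ) : ℝ := (Ioi (0:ℝ)).indicator (fun t => Real.exp (-(t / 3) ^ 2)) t

lemma wE_nonneg (t : ℝ) : 0 ≤ wE t := by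
  unfold wE
  exact indicator_nonneg (fun _ _ => (Real.exp_pos _).le) t

lemma wE_meas : Measurable wE := by
  unfold wE
  apply Measurable.indicator _ measurableSet_Ioi
  fun_prop

/-- the weight is integrable for measures of polynomial growth -/
lemma wE_int (A : ℝ) (μ : Measure ℝ) (hμ : ∀ x : ℝ, μ (Iic x) < ⊤)
    (hA : ∀ᶠ T : ℝ in atTop, μ.real (Ioc 0 T) ≤ T ^ A) : Integrable wE μ := by
  refine ⟨wE_meas.aestronglyMeasurable, ?_⟩
  rw [hasFiniteIntegral_iff_ofReal (Eventually.of_forall wE_nonneg)]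
  have h1 : ∫⁻ t, ENNReal.ofReal (wE t) ∂μ =
      ∫⁻ t in Ioi 0, ENNReal.ofReal (Real.exp (-(t / 3) ^ 2)) ∂μ := by
    rw [← lintegral_indicator measurableSet_Ioi]
    apply lintegral_congr
    intro t
    unfold wE
    by_cases ht : t ∈ Ioi (0:ℝ)
    · rw [indicator_of_mem ht, indicator_of_mem ht]
    · rw [indicator_of_notMem ht, indicator_of_notMem ht, ENNReal.ofReal_zero]
  rw [h1]
  have h2 : Ioi (0:ℝ) ⊆ ⋃ n : ℕ, Ioc (n:ℝ) (n + 1) := by
    intro t ht
    rw [mem_Ioi] at ht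
    rw [mem_iUnion]
    have h3 : 1 ≤ ⌈t⌉₊ := Nat.one_le_ceil_iff.2 ht
    refine ⟨⌈t⌉₊ - 1, ?_, ?_⟩
    · have h4 := Nat.ceil_lt_add_one ht.le
      push_cast [Nat.cast_sub h3]
      linarith
    · push_cast [Nat.cast_sub h3]
      have := Nat.le_ceil t
      linarith
  refine lt_of_le_of_lt (lintegral_mono_set h2) ?_
  refine lt_of_le_of_lt (lintegral_iUnion_le _ _) ?_
  have h5 : ∀ n : ℕ, ∫⁻ t in Ioc (n:ℝ) (n+1), ENNReal.ofReal (Real.exp (-(t / 3) ^ 2)) ∂μ ≤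
      ENNReal.ofReal (Real.exp (-((n:ℝ) / 3) ^ 2) * μ.real (Ioc 0 ((n:ℝ)+1))) := by
    intro n
    have hfin : μ (Ioc 0 ((n:ℝ)+1)) ≠ ⊤ :=
      (lt_of_le_of_lt (measure_mono (fun x hx => hx.2)) (hμ ((n:ℝ)+1))).ne
    calc ∫⁻ t in Ioc (n:ℝ) (n+1), ENNReal.ofReal (Real.exp (-(t / 3) ^ 2)) ∂μ
        ≤ ∫⁻ t in Ioc (n:ℝ) (n+1), ENNReal.ofReal (Real.exp (-((n:ℝ) / 3) ^ 2)) ∂μ := by
          apply setLIntegral_mono measurable_const
          intro t ht
          apply ENNReal.ofReal_le_ofReal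
          apply Real.exp_le_exp.2
          have hn : (0:ℝ) ≤ n := Nat.cast_nonneg n
          have : ((n:ℝ)/3)^2 ≤ (t/3)^2 := by
            apply pow_le_pow_left₀ (by positivity)
            linarith [ht.1]
          linarith
      _ = ENNReal.ofReal (Real.exp (-((n:ℝ) / 3) ^ 2)) * μ (Ioc (n:ℝ) (n+1)) := by
          rw [setLIntegral_const]
      _ ≤ ENNReal.ofReal (Real.exp (-((n:ℝ) / 3) ^ 2)) * μ (Ioc 0 ((n:ℝ)+1)) := by
          gcongr
          exact Nat.cast_nonneg n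
      _ = ENNReal.ofReal (Real.exp (-((n:ℝ) / 3) ^ 2) * μ.real (Ioc 0 ((n:ℝ)+1))) := by
          rw [ENNReal.ofReal_mul (Real.exp_pos _).le, ofReal_measureReal hfin]
  refine lt_of_le_of_lt (ENNReal.tsum_le_tsum h5) ?_
  apply Summable.tsum_ofReal_lt_top
  -- summability
  obtain ⟨k, hk⟩ := exists_nat_ge A
  have hs := Real.summable_pow_mul_exp_neg_nat_mul k (r := 1) one_pos
  have hs2 := hs.mul_left ((2:ℝ)^k * Real.exp (9/4))
  refine summable_of_isBigO_nat hs2 ?_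
  apply Asymptotics.IsBigO.of_bound 1
  have hA' : ∀ᶠ n : ℕ in atTop, μ.real (Ioc 0 ((n:ℝ)+1)) ≤ ((n:ℝ)+1) ^ A :=
    (tendsto_atTop_add_const_right _ 1 tendsto_natCast_atTop_atTop).eventually hA
  filter_upwards [hA', eventually_ge_atTop 1] with n hn hn1
  have hn1' : (1:ℝ) ≤ n := by exact_mod_cast hn1
  rw [one_mul, Real.norm_of_nonneg (by positivity), Real.norm_of_nonneg (by positivity)]
  have h6 : μ.real (Ioc 0 ((n:ℝ)+1)) ≤ (2:ℝ)^k * (n:ℝ)^k := by
    calc μ.real (Ioc 0 ((n:ℝ)+1)) ≤ ((n:ℝ)+1) ^ A := hn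
      _ ≤ ((n:ℝ)+1) ^ (k:ℝ) := Real.rpow_le_rpow_of_exponent_le (by linarith) hk
      _ = ((n:ℝ)+1)^k := Real.rpow_natCast _ _
      _ ≤ (2 * (n:ℝ))^k := by
          apply pow_le_pow_left₀ (by positivity)
          linarith
      _ = _ := mul_pow _ _ _
  have h7 : Real.exp (-((n:ℝ) / 3) ^ 2) ≤ Real.exp (9/4) * Real.exp (-1 * (n:ℝ)) := by
    rw [← Real.exp_add]
    apply Real.exp_le_exp.2
    have := sq_nonneg ((n:ℝ)/3 - 3/2)
    nlinarith
  calc Real.exp (-((n:ℝ) / 3) ^ 2) * μ.real (Ioc 0 ((n:ℝ)+1))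
      ≤ (Real.exp (9/4) * Real.exp (-1 * (n:ℝ))) * ((2:ℝ)^k * (n:ℝ)^k) := by
        apply mul_le_mul h7 h6 measureReal_nonneg (by positivity)
    _ = 2 ^ k * Real.exp (9 / 4) * ((n:ℝ) ^ k * Real.exp (-1 * ↑n)) := by ring

/-- the upper bound of the error -/
noncomputable def BB (T1 T t : ℝ) : ℝ :=
  (Ioo (T / 2) (3 * T / 2)).indicator (fun t => gg T 1 t) t / 2 + 2 * wE t +
    (Ioc (0:ℝ) (2 * T1)).indicator (fun _ => (1:ℝ)) t

lemma PC_bounds {T1 T : ℝ} (h : T1 ≤ T) (t : ℝ) : 0 ≤ PC T1 T 1 t ∧ PC T1 T 1 t ≤ 1 := by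
  have hpi : 0 < √Real.pi := Real.sqrt_pos.2 Real.pi_pos
  have hg := gg_int one_pos t
  rw [PC_eq h]
  refine ⟨mul_nonneg (by positivity) (setIntegral_nonneg (SS_meas _ _ _)
    fun τ _ => (Real.exp_pos _).le), ?_⟩
  have h1 : ∫ τ in SS T1 T t, gg τ 1 t ≤ √Real.pi * 1 := by
    rw [← gg_total one_pos t]
    exact setIntegral_le_integral hg (Eventually.of_forall fun τ => (Real.exp_pos _).le)
  rw [one_div, inv_mul_le_iff₀ (by positivity), mul_one]
  exact h1

lemma pointwise {T1 T : ℝ} (hT1 : 0 < T1) (hT : 2 * T1 ≤ T) (t : ℝ) :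
    |(Ioc (0:ℝ) T).indicator (fun _ => (1:ℝ)) t - PC T1 T 1 t| ≤ BB T1 T t := by
  have hT1T : T1 ≤ T := by linarith
  have hpi : 0 < √Real.pi := Real.sqrt_pos.2 Real.pi_pos
  have hb := PC_bounds hT1T t
  have hg := gg_int one_pos t
  have hg0 : ∀ S : Set ℝ, 0 ≤ᵐ[volume.restrict S] fun τ => gg τ 1 t :=
    fun S => Eventually.of_forall fun τ => (Real.exp_pos _).le
  have hI1 : 0 ≤ (Ioo (T / 2) (3 * T / 2)).indicator (fun t => gg T 1 t) t :=
    indicator_nonneg (fun _ _ => (Real.exp_pos _).le) t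
  have hI2 := wE_nonneg t
  have hI3 : 0 ≤ (Ioc (0:ℝ) (2 * T1)).indicator (fun _ => (1:ℝ)) t :=
    indicator_nonneg (fun _ _ => zero_le_one) t
  unfold BB
  rcases le_or_gt t 0 with ht0 | ht0
  · have h1 : (Ioc (0:ℝ) T).indicator (fun _ => (1:ℝ)) t = 0 :=
      indicator_of_notMem (fun h => absurd h.1 (not_lt.2 ht0)) _
    have h2 : PC T1 T 1 t = 0 := by
      rw [PC_eq hT1T]
      have hS : SS T1 T t = ∅ := by
        apply Set.eq_empty_of_forall_notMem
        rintro τ ⟨h1, h2⟩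
        linarith [h1.1, h2.2]
      rw [hS, setIntegral_empty, mul_zero]
    rw [h1, h2, sub_zero, abs_zero]
    positivity
  rcases le_or_gt t (2 * T1) with ht1 | ht1
  · have h1 : (Ioc (0:ℝ) T).indicator (fun _ => (1:ℝ)) t = 1 :=
      indicator_of_mem (show t ∈ Ioc (0:ℝ) T from ⟨ht0, by linarith⟩) _
    have h2 : (Ioc (0:ℝ) (2 * T1)).indicator (fun _ => (1:ℝ)) t = 1 :=
      indicator_of_mem (show t ∈ Ioc (0:ℝ) (2 * T1) from ⟨ht0, ht1⟩) _
    rw [h1, h2, abs_of_nonneg (by linarith)]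
    linarith [hb.1]
  have hwE : wE t = Real.exp (-(t/3)^2) := by
    unfold wE
    exact indicator_of_mem ht0 _
  have hexp : Real.exp (-t^2) ≤ Real.exp (-(t/3)^2) := by
    apply Real.exp_le_exp.2
    nlinarith [sq_nonneg t]
  rcases le_or_gt t T with htT | htT
  · have h1 : (Ioc (0:ℝ) T).indicator (fun _ => (1:ℝ)) t = 1 :=
      indicator_of_mem (show t ∈ Ioc (0:ℝ) T from ⟨ht0, htT⟩) _
    rw [h1, abs_of_nonneg (by linarith [hb.2])]
    have h2 := integral_add_compl (SS_meas T1 T t) hg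
    rw [gg_total one_pos t] at h2
    have hcomp : (SS T1 T t)ᶜ ⊆ (Iic (t - t/3) ∪ Ioi (t + (T - t))) ∪ Ici (t + t) := by
      intro τ hτ
      by_contra hcon
      simp only [mem_union, mem_Iic, mem_Ioi, mem_Ici, not_or, not_le, not_lt] at hcon
      obtain ⟨⟨hc1, hc2⟩, hc3⟩ := hcon
      apply hτ
      refine ⟨⟨by linarith, by linarith⟩, by linarith, by linarith⟩
    have h3 : ∫ τ in (SS T1 T t)ᶜ, gg τ 1 t ≤
        ∫ τ in (Iic (t - t/3) ∪ Ioi (t + (T - t))) ∪ Ici (t + t), gg τ 1 t :=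
      setIntegral_mono_set hg.integrableOn (hg0 _) (LE.le.eventuallyLE hcomp)
    have hun : ∀ S S' : Set ℝ, MeasurableSet S' →
        ∫ τ in S ∪ S', gg τ 1 t ≤ (∫ τ in S, gg τ 1 t) + ∫ τ in S', gg τ 1 t := by
      intro S S' hS'
      have e1 : S ∪ S' = (S \ S') ∪ S' := by rw [Set.sdiff_union_self]
      rw [e1, setIntegral_union disjoint_sdiff_left hS' hg.integrableOn hg.integrableOn]
      have := setIntegral_mono_set (hg.integrableOn (s := S)) (hg0 _)
        (LE.le.eventuallyLE (Set.sdiff_subset (s := S) (t := S')))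
      linarith
    have h4 := hun (Iic (t - t/3) ∪ Ioi (t + (T - t))) (Ici (t + t)) measurableSet_Ici
    have h5 := hun (Iic (t - t/3)) (Ioi (t + (T - t))) measurableSet_Ioi
    have h6 := gg_left one_pos (r := t/3) (by linarith) t
    have h7 := gg_right one_pos (r := T - t) (by linarith) t
    have h8 := gg_right one_pos (r := t) (by linarith) t
    rw [integral_Ici_eq_integral_Ioi] at h4
    simp only [div_one, mul_one] at h2 h6 h7 h8
    have h9 : √Real.pi - ∫ τ in SS T1 T t, gg τ 1 t ≤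
        (Real.exp (-(t/3)^2) + Real.exp (-(T-t)^2) + Real.exp (-t^2)) * (√Real.pi/2) := by
      linarith
    have h10 : 1 - PC T1 T 1 t ≤
        (Real.exp (-(t/3)^2) + Real.exp (-(T-t)^2) + Real.exp (-t^2)) / 2 := by
      rw [PC_eq hT1T, mul_one]
      have e2 : (1:ℝ) - 1 / √Real.pi * ∫ τ in SS T1 T t, gg τ 1 t =
          (√Real.pi - ∫ τ in SS T1 T t, gg τ 1 t) / √Real.pi := by
        field_simp
      rw [e2, div_le_iff₀ hpi]
      linarith
    rcases le_or_gt t (T/2) with htt | htt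
    · have h11 : Real.exp (-(T-t)^2) ≤ Real.exp (-t^2) := by
        apply Real.exp_le_exp.2
        have : t^2 ≤ (T-t)^2 := pow_le_pow_left₀ ht0.le (by linarith) 2
        linarith
      have := Real.exp_pos (-(t/3)^2)
      rw [hwE]
      linarith
    · have h12 : (Ioo (T / 2) (3 * T / 2)).indicator (fun t => gg T 1 t) t =
          Real.exp (-(T-t)^2) := by
        rw [indicator_of_mem (show t ∈ Ioo (T / 2) (3 * T / 2) from ⟨htt, by linarith⟩)]
        unfold gg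
        congr 1
        ring
      rw [h12, hwE]
      have := Real.exp_pos (-(t/3)^2)
      linarith
  · have h1 : (Ioc (0:ℝ) T).indicator (fun _ => (1:ℝ)) t = 0 :=
      indicator_of_notMem (fun h => absurd h.2 (not_le.2 htT)) _
    rw [h1, zero_sub, abs_neg, abs_of_nonneg hb.1]
    rcases le_or_gt (3 * T / 2) t with htt | htt
    · have h2 : PC T1 T 1 t = 0 := by
        rw [PC_eq hT1T]
        have hS : SS T1 T t = ∅ := by
          apply Set.eq_empty_of_forall_notMem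
          rintro τ ⟨h1, h2⟩
          linarith [h1.2, h2.1]
        rw [hS, setIntegral_empty, mul_zero]
      rw [h2]
      positivity
    · have h12 : (Ioo (T / 2) (3 * T / 2)).indicator (fun t => gg T 1 t) t =
          Real.exp (-(t-T)^2) := by
        rw [indicator_of_mem (show t ∈ Ioo (T / 2) (3 * T / 2) from ⟨by linarith, htt⟩)]
        unfold gg
        congr 1
        ring
      have h2 : ∫ τ in SS T1 T t, gg τ 1 t ≤ ∫ τ in Iic (t - (t - T)), gg τ 1 t := by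
        refine setIntegral_mono_set hg.integrableOn (hg0 _) (LE.le.eventuallyLE ?_)
        rintro τ ⟨h2, h3⟩
        rw [mem_Iic]
        linarith [h2.2]
      have h3 := gg_left one_pos (r := t - T) (by linarith) t
      simp only [div_one, mul_one] at h3
      have h4 : PC T1 T 1 t ≤ Real.exp (-(t-T)^2) / 2 := by
        rw [PC_eq hT1T, mul_one, one_div, inv_mul_le_iff₀ hpi]
        linarith
      rw [h12]
      linarith

/-- the comparison for one measure -/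
lemma one_meas (μ : Measure ℝ) (hμ : ∀ x : ℝ, μ (Iic x) < ⊤) (hwE : Integrable wE μ)
    {T1 T : ℝ} (hT1 : 0 < T1) (hT : 2 * T1 ≤ T) (hPC : Integrable (fun t => PC T1 T 1 t) μ) :
    |μ.real (Ioc 0 T) - ∫ t, PC T1 T 1 t ∂μ| ≤
      (∫ t in Ioo (T / 2) (3 * T / 2), gg T 1 t ∂μ) / 2 + 2 * (∫ t, wE t ∂μ) +
        μ.real (Ioc 0 (2 * T1)) := by
  have hfin : ∀ a b : ℝ, μ (Ioc a b) ≠ ⊤ := fun a b =>
    (lt_of_le_of_lt (measure_mono (fun x hx => hx.2)) (hμ b)).ne
  have hfin' : ∀ a b : ℝ, μ (Ioo a b) ≠ ⊤ := fun a b =>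
    (lt_of_le_of_lt (measure_mono (fun x hx => hx.2.le)) (hμ b)).ne
  have hind : ∀ a b : ℝ, Integrable ((Ioc a b).indicator (fun _ => (1:ℝ))) μ := by
    intro a b
    exact (integrable_indicator_iff measurableSet_Ioc).2 (integrableOn_const (hfin a b))
  have hgg : Integrable ((Ioo (T / 2) (3 * T / 2)).indicator (fun t => gg T 1 t)) μ := by
    rw [integrable_indicator_iff measurableSet_Ioo]
    have : IsFiniteMeasure (μ.restrict (Ioo (T / 2) (3 * T / 2))) :=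
      ⟨by rw [Measure.restrict_apply_univ]; exact (hfin' _ _).lt_top⟩
    refine Integrable.of_bound (C := 1) ?_ (Eventually.of_forall fun t => ?_)
    · have : Continuous (fun t => gg T 1 t) := by
        unfold gg
        fun_prop
      exact this.aestronglyMeasurable
    · rw [Real.norm_eq_abs, abs_of_nonneg (Pool.Agent.W928.QS.gg_nonneg _ _ _)]
      exact Pool.Agent.W928.QS.gg_le _ _ _
  have hBB : Integrable (fun t => BB T1 T t) μ := by
    unfold BB
    exact ((hgg.div_const 2).add (hwE.const_mul 2)).add (hind 0 (2*T1))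
  have hone : ∀ b : ℝ, ∫ t, (Ioc 0 b).indicator (fun _ => (1:ℝ)) t ∂μ = μ.real (Ioc 0 b) := by
    intro b
    rw [integral_indicator measurableSet_Ioc, setIntegral_const, smul_eq_mul, mul_one]
  have h1 : μ.real (Ioc 0 T) - ∫ t, PC T1 T 1 t ∂μ =
      ∫ t, ((Ioc (0:ℝ) T).indicator (fun _ => (1:ℝ)) t - PC T1 T 1 t) ∂μ := by
    rw [integral_sub (hind 0 T) hPC, hone]
  rw [h1]
  refine le_trans (abs_integral_le_integral_abs) ?_
  refine le_trans (integral_mono ((hind 0 T).sub hPC).abs hBB (fun t => pointwise hT1 hT t)) ?_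
  apply le_of_eq
  have h2 : ∫ t, BB T1 T t ∂μ = ∫ t, ((Ioo (T / 2) (3 * T / 2)).indicator (fun t => gg T 1 t) t / 2
      + 2 * wE t) ∂μ + ∫ t, (Ioc (0:ℝ) (2 * T1)).indicator (fun _ => (1:ℝ)) t ∂μ := by
    unfold BB
    exact integral_add ((hgg.div_const 2).add (hwE.const_mul 2)) (hind 0 (2*T1))
  rw [h2, hone, integral_add (hgg.div_const 2) (hwE.const_mul 2), integral_div,
    integral_const_mul, integral_indicator measurableSet_Ioo]

theorem sharp : StSharp := by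
  intro A μ ν hμ hν _ _ hAμ hAν hE
  obtain ⟨C0, T0, hE⟩ := hE
  set T1 : ℝ := max T0 1 with hT1
  have hT1a : 1 ≤ T1 := le_max_right _ _
  have hT1b : T0 ≤ T1 := le_max_left _ _
  have hT1p : 0 < T1 := by linarith
  have hwμ := wE_int A μ hμ hAμ
  have hwν := wE_int A ν hν hAν
  set K : ℝ := 2 * (∫ t, wE t ∂μ) + μ.real (Ioc 0 (2 * T1)) + (2 * (∫ t, wE t ∂ν) +
    ν.real (Ioc 0 (2 * T1))) + 2 * |C0| with hK
  have hK0 : 0 ≤ K := by
    have h1 : 0 ≤ ∫ t, wE t ∂μ := integral_nonneg wE_nonneg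
    have h2 : 0 ≤ ∫ t, wE t ∂ν := integral_nonneg wE_nonneg
    positivity
  refine ⟨K + 1, 2 * T1, fun T hT => ?_⟩
  have hTT1 : T1 ≤ T := by linarith
  obtain ⟨hP1, hJ1, hF1⟩ := Pool.Agent.W928.QS.qs_fub μ hμ T1 T 1 hT1p hTT1 one_pos
  obtain ⟨hP2, hJ2, hF2⟩ := Pool.Agent.W928.QS.qs_fub ν hν T1 T 1 hT1p hTT1 one_pos
  have h1 := one_meas μ hμ hwμ hT1p hT hP1
  have h2 := one_meas ν hν hwν hT1p hT hP2
  have hpi : 1 ≤ √Real.pi := by
    rw [Real.one_le_sqrt]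
    linarith [Real.pi_gt_three]
  -- the difference of the two smooth counts
  have h3 : |(∫ t, PC T1 T 1 t ∂ν) - ∫ t, PC T1 T 1 t ∂μ| ≤ |C0| := by
    have h4 : √Real.pi * ((∫ t, PC T1 T 1 t ∂ν) - ∫ t, PC T1 T 1 t ∂μ) =
        ∫ τ in T1..T, ((∫ t in Ioo (τ / 2) (3 * τ / 2), gg τ 1 t ∂ν) -
          ∫ t in Ioo (τ / 2) (3 * τ / 2), gg τ 1 t ∂μ) := by
      rw [intervalIntegral.integral_sub hJ2 hJ1, hF1, hF2]
      ring
    have hii : IntervalIntegrable (fun τ : ℝ => |C0| * τ ^ (-(3:ℝ))) volume T1 T := by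
      apply ContinuousOn.intervalIntegrable
      rw [uIcc_of_le hTT1]
      apply ContinuousOn.mul continuousOn_const
      apply ContinuousOn.rpow_const continuousOn_id
      intro x hx
      left
      have := hx.1
      simp only [id]
      linarith
    have h5 : |∫ τ in T1..T, ((∫ t in Ioo (τ / 2) (3 * τ / 2), gg τ 1 t ∂ν) -
          ∫ t in Ioo (τ / 2) (3 * τ / 2), gg τ 1 t ∂μ)| ≤ ∫ τ in T1..T, |C0| * τ ^ (-(3:ℝ)) := by
      rw [← Real.norm_eq_abs]
      refine intervalIntegral.norm_integral_le_of_norm_le hTT1 ?_ hii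
      refine Eventually.of_forall fun τ hτ => ?_
      rw [Real.norm_eq_abs, abs_sub_comm]
      refine le_trans (hE τ (by linarith [hτ.1])) ?_
      have : 0 ≤ τ ^ (-(3:ℝ)) := Real.rpow_nonneg (by linarith [hτ.1]) _
      exact mul_le_mul_of_nonneg_right (le_abs_self _) this
    have h6 : ∫ τ in T1..T, |C0| * τ ^ (-(3:ℝ)) ≤ |C0| := by
      rw [intervalIntegral.integral_const_mul, integral_rpow]
      · have e1 : (-(3:ℝ)) + 1 = -2 := by norm_num
        rw [e1]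
        have h7 : T1 ^ (-(2:ℝ)) ≤ 1 := Real.rpow_le_one_of_one_le_of_nonpos hT1a (by norm_num)
        have h8 : 0 ≤ T ^ (-(2:ℝ)) := Real.rpow_nonneg (by linarith) _
        have h9 : (T ^ (-(2:ℝ)) - T1 ^ (-(2:ℝ))) / (-2) ≤ 1 := by linarith
        calc |C0| * ((T ^ (-(2:ℝ)) - T1 ^ (-(2:ℝ))) / (-2)) ≤ |C0| * 1 :=
              mul_le_mul_of_nonneg_left h9 (abs_nonneg _)
          _ = |C0| := mul_one _
      · right
        refine ⟨by norm_num, ?_⟩
        rw [uIcc_of_le hTT1]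
        intro h
        linarith [h.1]
    rw [← h4, abs_mul, abs_of_nonneg (by linarith)] at h5
    have h10 : |(∫ t, PC T1 T 1 t ∂ν) - ∫ t, PC T1 T 1 t ∂μ| ≤
        √Real.pi * |(∫ t, PC T1 T 1 t ∂ν) - ∫ t, PC T1 T 1 t ∂μ| :=
      le_mul_of_one_le_left (abs_nonneg _) hpi
    linarith
  -- the Gaussian average of the second measure
  set G1 : ℝ := ∫ t in Ioo (T / 2) (3 * T / 2), gg T 1 t ∂μ with hG1
  set G2 : ℝ := ∫ t in Ioo (T / 2) (3 * T / 2), gg T 1 t ∂ν with hG2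
  have hG10 : 0 ≤ G1 := integral_nonneg (fun t => (Real.exp_pos _).le)
  have h11 : G2 ≤ G1 + |C0| := by
    have h12 := hE T (by linarith)
    have h13 : C0 * T ^ (-(3:ℝ)) ≤ |C0| := by
      have h14 : T ^ (-(3:ℝ)) ≤ 1 :=
        Real.rpow_le_one_of_one_le_of_nonpos (by linarith) (by norm_num)
      have h15 : 0 ≤ T ^ (-(3:ℝ)) := Real.rpow_nonneg (by linarith) _
      calc C0 * T ^ (-(3:ℝ)) ≤ |C0| * T ^ (-(3:ℝ)) :=
            mul_le_mul_of_nonneg_right (le_abs_self _) h15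
        _ ≤ |C0| * 1 := mul_le_mul_of_nonneg_left h14 (abs_nonneg _)
        _ = |C0| := mul_one _
    have := (abs_le.1 h12).1
    linarith
  have h16 : |ν.real (Ioc 0 T) - μ.real (Ioc 0 T)| ≤ G1 + K := by
    have e : ν.real (Ioc 0 T) - μ.real (Ioc 0 T) = (ν.real (Ioc 0 T) - ∫ t, PC T1 T 1 t ∂ν) +
        ((∫ t, PC T1 T 1 t ∂ν) - ∫ t, PC T1 T 1 t ∂μ) -
        (μ.real (Ioc 0 T) - ∫ t, PC T1 T 1 t ∂μ) := by ring
    rw [e]
    have h17 := abs_sub (ν.real (Ioc 0 T) - ∫ t, PC T1 T 1 t ∂ν +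
        ((∫ t, PC T1 T 1 t ∂ν) - ∫ t, PC T1 T 1 t ∂μ)) (μ.real (Ioc 0 T) - ∫ t, PC T1 T 1 t ∂μ)
    have h18 := abs_add_le (ν.real (Ioc 0 T) - ∫ t, PC T1 T 1 t ∂ν)
      ((∫ t, PC T1 T 1 t ∂ν) - ∫ t, PC T1 T 1 t ∂μ)
    have := abs_nonneg C0
    linarith
  have h19 : G1 + K ≤ (K + 1) * (1 + G1) := by nlinarith
  linarith

theorem qs_sharp (_h1 : StFub) (_h2 : StPC) : StSharp := sharp

end Pool.Agent.W721.QS
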